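import Pool.Agent.H47.SE.PosMain
import Pool.Agent.H47.SE.NonPosMain
import Pool.Agent.H47.SE.Mono
import Pool.Agent.H47.SE.Interp

/-!
# The Simple equation overestimates the Bose gas energy at high density

For every `m₀ > 0` and every nonnegative, nonzero `v ∈ L¹(ℝ³) ∩ L^p(ℝ³)` with `p ≥ 2` there are
`ρ₀ > 0` and `c > 0` such that `e₀(ρ) + c ≤ e` for every mass `m ≥ m₀`, every density `ρ ≥ ρ₀` and
every integrable solution `(u, e)` of the Simple equation at density `ρ` with `0 ≤ u ≤ 1`.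
-/

open MeasureTheory H47.SE
open scoped ENNReal

namespace Pool.Agent.Results.MP_2d9608_mp.HighDensity

theorem result {m₀ : ℝ} (hm₀ : 0 < m₀) {v : E3 → ℝ} (hvm : Measurable v) (hv0 : ∀ x, 0 ≤ v x)
    (hv : Integrable v) (hvne : ¬ v =ᵐ[volume] 0) {p : ℝ≥0∞} (hp : 2 ≤ p) (hvp : MemLp v p) :
    ∃ ρ₀ > 0, ∃ c > 0, ∀ m ≥ m₀, ∀ ρ ≥ ρ₀, ∀ (u : E3 → ℝ) (e : ℝ),
      IsSimpleSolution m v ρ u e →
      ∀ w : ℝ → E3 → ℝ, (w = perPot v ∨ w = nearPot v) →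
        ∀ e₀ : ℝ, IsThermoLimit m ρ w e₀ → e₀ + c ≤ e := by
  have hI := integral_pos_of_ne hv0 hv hvne
  have hv2 := memLp_two_of_memLp hv hp hvp
  -- the comparison for energies below the periodized ones
  have key : ∃ ρ₀ > 0, ∃ c > 0, ∀ m ≥ m₀, ∀ ρ ≥ ρ₀, ∀ u e, IsSimpleSolution m v ρ u e →
      ∀ (E : ℕ → ℝ) (e0 : ℝ),
      (∀ N, 0 < N → E N ≤ groundEnergy m (perPot v (side ρ N)) N (side ρ N)) →
      Filter.Tendsto (fun N : ℕ => E N / N) Filter.atTop (nhds e0) → e0 + c ≤ e := by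
    by_cases hpos : ∀ ξ, (vhat v ξ).im = 0 ∧ 0 ≤ (vhat v ξ).re
    · exact main_postype hm₀ hv0 hvm hv hv2 hI (fun ξ => (hpos ξ).1) (fun ξ => (hpos ξ).2)
    · push Not at hpos
      obtain ⟨ξ, hξ⟩ := hpos
      have hlt : (vhat v ξ).re < ‖vhat v ξ‖ := by
        by_cases him : (vhat v ξ).im = 0
        · exact lt_of_lt_of_le (hξ him) (norm_nonneg _)
        · exact lt_of_le_of_lt (le_abs_self _) (Complex.abs_re_lt_norm.mpr him)
      obtain ⟨ρ0, hρ0, c, hc, h⟩ := main_nonpos hm₀ hv0 hvm hv hI hlt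
      refine ⟨ρ0, hρ0, c * ρ0, by positivity, ?_⟩
      intro m hm ρ hρ u e hu E e0 hE he0
      have h1 := h m hm ρ hρ u e hu E e0 hE he0
      have h2 : c * ρ0 ≤ c * ρ := mul_le_mul_of_nonneg_left hρ hc.le
      linarith
  obtain ⟨ρ0, hρ0, c, hc, h⟩ := key
  refine ⟨ρ0, hρ0, c, hc, ?_⟩
  intro m hm ρ hρ u e hu w hw e0 he0
  have hρpos : 0 < ρ := lt_of_lt_of_le hρ0 hρ
  rcases hw with rfl | rfl
  · exact h m hm ρ hρ u e hu _ e0 (fun N _ => le_refl _) he0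
  · refine h m hm ρ hρ u e hu _ e0 (fun N hN => ?_) he0
    have fL : Fact (0 < side ρ N) := ⟨side_pos hρpos hN⟩
    exact groundEnergy_near_le (lt_of_lt_of_le hm₀ hm) hv0 hvm hv

end Pool.Agent.Results.MP_2d9608_mp.HighDensity
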