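import Pool.Agent.H47.SE.NonPosMain
import Pool.Agent.H47.SE.Mono
import Pool.Agent.H47.SE.Interp

/-!
# Potentials which are not of positive type: a gap which grows linearly in the density

For every `m₀ > 0` and every nonnegative, nonzero `v ∈ L¹(ℝ³)` whose Fourier transform is not
everywhere real and nonnegative there are `ρ₀ > 0` and `c > 0` such that `e₀(ρ) + c ρ ≤ e` for every
mass `m ≥ m₀`, every density `ρ ≥ ρ₀` and every integrable solution `(u, e)` of the Simple equation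
at density `ρ` with `0 ≤ u ≤ 1`.
-/

open MeasureTheory FourierTransform H47.SE

namespace Pool.Agent.Results.MP_2d9608_mp.NotPositiveType

theorem result {m₀ : ℝ} (hm₀ : 0 < m₀) {v : E3 → ℝ} (hvm : Measurable v) (hv0 : ∀ x, 0 ≤ v x)
    (hv : Integrable v) (hvne : ¬ v =ᵐ[volume] 0)
    {ξ : E3} (hξ : (𝓕 (fun x => (v x : ℂ)) ξ).im ≠ 0 ∨ (𝓕 (fun x => (v x : ℂ)) ξ).re < 0) :
    ∃ ρ₀ > 0, ∃ c > 0, ∀ m ≥ m₀, ∀ ρ ≥ ρ₀, ∀ (u : E3 → ℝ) (e : ℝ),
      IsSimpleSolution m v ρ u e →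
      ∀ w : ℝ → E3 → ℝ, (w = perPot v ∨ w = nearPot v) →
        ∀ e₀ : ℝ, IsThermoLimit m ρ w e₀ → e₀ + c * ρ ≤ e := by
  have hI := integral_pos_of_ne hv0 hv hvne
  have hlt : (vhat v ξ).re < ‖vhat v ξ‖ := by
    rcases hξ with him | hre
    · exact lt_of_le_of_lt (le_abs_self _) (Complex.abs_re_lt_norm.mpr him)
    · exact lt_of_lt_of_le hre (norm_nonneg _)
  obtain ⟨ρ0, hρ0, c, hc, h⟩ := main_nonpos hm₀ hv0 hvm hv hI hlt
  refine ⟨ρ0, hρ0, c, hc, ?_⟩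
  intro m hm ρ hρ u e hu w hw e0 he0
  have hρpos : 0 < ρ := lt_of_lt_of_le hρ0 hρ
  rcases hw with rfl | rfl
  · exact h m hm ρ hρ u e hu _ e0 (fun N _ => le_refl _) he0
  · refine h m hm ρ hρ u e hu _ e0 (fun N hN => ?_) he0
    have fL : Fact (0 < side ρ N) := ⟨side_pos hρpos hN⟩
    exact groundEnergy_near_le (lt_of_lt_of_le hm₀ hm) hv0 hvm hv

end Pool.Agent.Results.MP_2d9608_mp.NotPositiveType
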