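import Pool.Agent.SCB.Main

/-!
# Strong step-like potentials: a gap at all densities above the inverse volume of the support

Let `C` be a compact symmetric set in `ℝ³` and `g` a Borel function with `0 ≤ g ≤ 1`, `g = 0` off
`C` and `16 ∫ g > 9 |C|`, for example the indicator of `C`. For every `ρ₁ > 1 / |{g > 0}|` there
are `A > 0` and `c > 0` such that `e₀(ρ) + c K ρ ≤ e` for all densities `ρ ≥ ρ₁`, all `m, K > 0`
with `m K ≥ A`, all integrable `v ≥ K g` with `A ∫ (v - K g) ≤ K` and all integrable solutions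
`(u, e)` of the Simple equation at density `ρ` with `0 ≤ u ≤ 1`.
-/

open MeasureTheory H47.SE

namespace Pool.Agent.Results.MP_2d9608_mp.StrongCoupling

theorem result {C : Set E3} (hC : IsCompact C) (hsym : ∀ x ∈ C, -x ∈ C) {g : E3 → ℝ}
    (hgm : Measurable g) (hg0 : ∀ x, 0 ≤ g x) (hg1 : ∀ x, g x ≤ 1) (hgC : ∀ x ∉ C, g x = 0)
    (hθ : 9 * volume.real C < 16 * ∫ x, g x) {ρ₁ : ℝ}
    (hρ₁ : 1 < ρ₁ * volume.real {x | 0 < g x}) :
    ∃ A > 0, ∃ c > 0, ∀ ρ ≥ ρ₁, ∀ m K : ℝ, 0 < m → 0 < K → A ≤ m * K →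
      ∀ v : E3 → ℝ, Measurable v → Integrable v → (∀ x, K * g x ≤ v x) →
      A * ∫ x, (v x - K * g x) ≤ K →
      ∀ (u : E3 → ℝ) (e : ℝ), IsSimpleSolution m v ρ u e →
      ∀ w : ℝ → E3 → ℝ, (w = perPot v ∨ w = nearPot v) →
        ∀ e₀ : ℝ, IsThermoLimit m ρ w e₀ → e₀ + c * K * ρ ≤ e := by
  obtain ⟨A, hA, c, hc, h⟩ := Pool.Agent.SCB.main' hC hsym hgm hg0 hg1 hgC hθ hρ₁
  refine ⟨A, hA, c, hc, ?_⟩
  intro ρ hρ m K hm hK hAmK v hvm hvi hKv hAR u e hu w hw e₀ he₀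
  have hρ₁0 : 0 < ρ₁ := by
    by_contra hcon
    push Not at hcon
    have := mul_nonpos_of_nonpos_of_nonneg hcon (measureReal_nonneg
      (μ := (volume : Measure E3)) (s := {x | 0 < g x}))
    linarith
  have hρ0 : 0 < ρ := lt_of_lt_of_le hρ₁0 hρ
  have hv0 : ∀ x, 0 ≤ v x := fun x => (mul_nonneg hK.le (hg0 x)).trans (hKv x)
  rcases hw with rfl | rfl
  · exact h ρ hρ m K hm hK hAmK v hvm hvi hKv hAR u e hu _ e₀ (fun N _ => le_refl _) he₀
  · refine h ρ hρ m K hm hK hAmK v hvm hvi hKv hAR u e hu _ e₀ (fun N hN => ?_) he₀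
    have fL : Fact (0 < side ρ N) := ⟨side_pos hρ0 hN⟩
    exact groundEnergy_near_le hm hv0 hvm hvi

end Pool.Agent.Results.MP_2d9608_mp.StrongCoupling
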