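import Pool.Agent.BG.Main
import Pool.Agent.H47.SE.Interp

/-!
# The Simple equation overestimates the Bose gas energy outside the dilute regime

Let `w ≥ 0` be an even Borel function in `L¹(ℝ³) ∩ L^p(ℝ³)`, `p > 3/2`, not a.e. `0`. There are
`C > 0` and `c > 0`, depending only on `w`, such that for every mass `m > 0`, every coupling
constant `K > 0`, every density `ρ ≥ C min (1, m K)` and every integrable solution `(u, e)` of the
Simple equation for `v = K w` at density `ρ` with `0 ≤ u ≤ 1`: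
`e₀(ρ) + c K min (1, m K ρ)² ≤ e`.
-/

open MeasureTheory H47.SE
open scoped ENNReal

namespace Pool.Agent.Results.MP_2d9608_mp.UniformCoupling

theorem result {w : E3 → ℝ} (hwm : Measurable w) (hw0 : ∀ x, 0 ≤ w x)
    (heven : ∀ x, w (-x) = w x) (hw : Integrable w) (hwne : ¬ w =ᵐ[volume] 0)
    {p : ℝ≥0∞} (hp : 3 / 2 < p) (hwp : MemLp w p) :
    ∃ C > 0, ∃ c > 0, ∀ m > 0, ∀ K > 0, ∀ ρ > 0, C * min 1 (m * K) ≤ ρ →
      ∀ (u : E3 → ℝ) (e : ℝ), IsSimpleSolution m (fun x => K * w x) ρ u e →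
      ∀ W : ℝ → E3 → ℝ, (W = perPot (fun x => K * w x) ∨ W = nearPot (fun x => K * w x)) →
        ∀ e₀ : ℝ, IsThermoLimit m ρ W e₀ → e₀ + c * K * min 1 (m * K * ρ) ^ 2 ≤ e := by
  obtain ⟨C, hC, c, hc, h⟩ :=
    Pool.Agent.BG.main hwm hw0 heven hw (integral_pos_of_ne hw0 hw hwne) hp hwp
  refine ⟨C, hC, c, hc, ?_⟩
  intro m hm K hK ρ hρ hCρ u e hu W hW e₀ he₀
  rcases hW with rfl | rfl
  · exact h m hm K hK ρ hρ hCρ u e hu _ e₀ (fun N _ => le_refl _) he₀
  · refine h m hm K hK ρ hρ hCρ u e hu _ e₀ (fun N hN => ?_) he₀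
    have fL : Fact (0 < side ρ N) := ⟨side_pos hρ hN⟩
    exact groundEnergy_near_le hm (fun x => mul_nonneg hK.le (hw0 x)) (hwm.const_mul K)
      (hw.const_mul K)

end Pool.Agent.Results.MP_2d9608_mp.UniformCoupling
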